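import Pool.Agent.U496.UP.Main

/-!
# Automata as linear machines, and the joint statement
-/

set_option autoImplicit false

namespace Pool.Agent.U496.UP

open Finset

open Classical in
/-- the number of the `n ≤ N` at which the linear machine `(T, o)` in the states `x 0, x 1, …` fails: `x (n + 1) ≠ T (x n)`,
or the output `o (x n)` is not `f n` -/
noncomputable def failures (f : ℕ → ZMod 2) {V : Type} [AddCommGroup V] [Module (ZMod 2) V]
    (T : V →ₗ[ZMod 2] V) (o : V →ₗ[ZMod 2] ZMod 2) (x : ℕ → V) (N : ℕ) : ℕ :=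
  ((range (N + 1)).filter fun n => x (n + 1) ≠ T (x n) ∨ o (x n) ≠ f n).card

/-- the states of an automaton which reads `a 0, a 1, …` -/
def state {Q A : Type} (next : Q → A → Q) (q₀ : Q) (a : ℕ → A) : ℕ → Q
  | 0 => q₀
  | n + 1 => next (state next q₀ a n) (a n)

open Classical in
/-- the number of the `n ≤ N` with `guess (state n) ≠ a n`, plus the number of the `n ≤ N` with `φ (a n) ≠ f n` -/
noncomputable def cost (f : ℕ → ZMod 2) {Q A : Type} (next : Q → A → Q) (guess : Q → A) (q₀ : Q) (a : ℕ → A)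
    (φ : A → ZMod 2) (N : ℕ) : ℕ :=
  ((range (N + 1)).filter fun n => guess (state next q₀ a n) ≠ a n).card +
    ((range (N + 1)).filter fun n => φ (a n) ≠ f n).card

theorem failures_lower {f : ℕ → ZMod 2} (hf : Many f) (ε : ℝ) (hε : 0 < ε) : ∃ N₀ : ℕ, ∀ N : ℕ, N₀ ≤ N → ∀ S : ℕ,
    16 * S ^ 2 ≤ N → ∀ (V : Type) [AddCommGroup V] [Module (ZMod 2) V] [FiniteDimensional (ZMod 2) V],
      Module.finrank (ZMod 2) V ≤ S → ∀ (T : V →ₗ[ZMod 2] V) (o : V →ₗ[ZMod 2] ZMod 2) (x : ℕ → V),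
        (N : ℝ) ^ (1 / 2 - ε) ≤ (S + 1) * (failures f T o x N : ℝ) := by
  classical
  obtain ⟨N₀, h⟩ := machine hf ε hε
  refine ⟨N₀, fun N hN S hS V _ _ _ hV T o x => ?_⟩
  refine (h N hN S hS V hV T o x ((range (N + 1)).filter fun n => x (n + 1) ≠ T (x n) ∨ o (x n) ≠ f n) ?_).trans
    (le_of_eq ?_)
  · intro n hn hb
    rw [mem_filter, mem_range] at hb
    by_contra hcon
    apply hb
    refine ⟨by omega, ?_⟩
    by_contra h2
    push Not at h2
    exact hcon h2
  · unfold failures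
    congr!

theorem failures_log {f : ℕ → ZMod 2} (hf : Deep f) : ∃ C : ℕ, ∀ (N S : ℕ) (V : Type) [AddCommGroup V]
    [Module (ZMod 2) V] [FiniteDimensional (ZMod 2) V], Module.finrank (ZMod 2) V ≤ S →
      ∀ (T : V →ₗ[ZMod 2] V) (o : V →ₗ[ZMod 2] ZMod 2) (x : ℕ → V),
        N ≤ (S + 1) * C ^ (failures f T o x N + 1) := by
  classical
  obtain ⟨C, h⟩ := machine_log hf
  refine ⟨C, fun N S V _ _ _ hV T o x => ?_⟩
  refine (h N S V hV T o x ((range (N + 1)).filter fun n => x (n + 1) ≠ T (x n) ∨ o (x n) ≠ f n) ?_).trans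
    (le_of_eq ?_)
  · intro n hn hb
    rw [mem_filter, mem_range] at hb
    by_contra hcon
    apply hb
    refine ⟨by omega, ?_⟩
    by_contra h2
    push Not at h2
    exact hcon h2
  · rw [mul_comm]
    unfold failures
    congr!

lemma failures_le (f : ℕ → ZMod 2) {V : Type} [AddCommGroup V] [Module (ZMod 2) V]
    (T : V →ₗ[ZMod 2] V) (o : V →ₗ[ZMod 2] ZMod 2) (x : ℕ → V) (N : ℕ) (s : Finset ℕ)
    (h : ∀ n, n ≤ N → (x (n + 1) ≠ T (x n) ∨ o (x n) ≠ f n) → n ∈ s) : failures f T o x N ≤ s.card := by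
  classical
  unfold failures
  refine card_le_card fun n hn => ?_
  obtain ⟨h1, h2⟩ := mem_filter.1 hn
  rw [mem_range] at h1
  exact h n (by omega) h2

/-- an automaton is a linear machine -/
theorem automaton {Q A : Type} [Fintype Q] (f : ℕ → ZMod 2) (next : Q → A → Q) (guess : Q → A) (q₀ : Q) (a : ℕ → A)
    (φ : A → ZMod 2) (N : ℕ) :
    ∃ (T : (Q →₀ ZMod 2) →ₗ[ZMod 2] (Q →₀ ZMod 2)) (o : (Q →₀ ZMod 2) →ₗ[ZMod 2] ZMod 2) (x : ℕ → (Q →₀ ZMod 2)),
      failures f T o x N ≤ cost f next guess q₀ a φ N := by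
  classical
  refine ⟨Finsupp.lmapDomain (ZMod 2) (ZMod 2) fun q => next q (guess q),
    Finsupp.linearCombination (ZMod 2) fun q => φ (guess q), fun n => Finsupp.single (state next q₀ a n) 1, ?_⟩
  unfold cost
  refine le_trans (failures_le _ _ _ _ _ _ ?_) (card_union_le _ _)
  intro n hn hn2
  have hn1 : n ∈ range (N + 1) := mem_range.2 (by omega)
  by_cases h1 : guess (state next q₀ a n) = a n
  · by_cases h2 : φ (a n) = f n
    · exfalso
      rcases hn2 with h3 | h3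
      · apply h3
        rw [Finsupp.lmapDomain_apply, Finsupp.mapDomain_single]
        change Finsupp.single (next (state next q₀ a n) (a n)) 1 = _
        rw [h1]
      · apply h3
        rw [Finsupp.linearCombination_single, one_smul, h1, h2]
    · exact mem_union_right _ (mem_filter.2 ⟨hn1, h2⟩)
  · exact mem_union_left _ (mem_filter.2 ⟨hn1, h1⟩)

theorem cost_lower {f : ℕ → ZMod 2} (hf : Many f) (ε : ℝ) (hε : 0 < ε) : ∃ N₀ : ℕ, ∀ N : ℕ, N₀ ≤ N → ∀ S : ℕ,
    16 * S ^ 2 ≤ N → ∀ (Q A : Type) [Fintype Q], Fintype.card Q ≤ S → ∀ (next : Q → A → Q) (guess : Q → A) (q₀ : Q)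
      (a : ℕ → A) (φ : A → ZMod 2), (N : ℝ) ^ (1 / 2 - ε) ≤ (S + 1) * (cost f next guess q₀ a φ N : ℝ) := by
  obtain ⟨N₀, h⟩ := failures_lower hf ε hε
  refine ⟨N₀, fun N hN S hS Q A _ hQ next guess q₀ a φ => ?_⟩
  obtain ⟨T, o, x, hle⟩ := automaton f next guess q₀ a φ N
  have h1 := h N hN S hS (Q →₀ ZMod 2) (by rw [Module.finrank_finsupp_self]; exact hQ) T o x
  refine h1.trans (mul_le_mul_of_nonneg_left (by exact_mod_cast hle) (by positivity))

theorem cost_log {f : ℕ → ZMod 2} (hf : Deep f) : ∃ C : ℕ, ∀ (N S : ℕ) (Q A : Type) [Fintype Q], Fintype.card Q ≤ S →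
    ∀ (next : Q → A → Q) (guess : Q → A) (q₀ : Q) (a : ℕ → A) (φ : A → ZMod 2),
      N ≤ (S + 1) * C ^ (cost f next guess q₀ a φ N + 1) := by
  obtain ⟨C, h⟩ := failures_log hf
  refine ⟨C + 1, fun N S Q A _ hQ next guess q₀ a φ => ?_⟩
  obtain ⟨T, o, x, hle⟩ := automaton f next guess q₀ a φ N
  have h1 := h N S (Q →₀ ZMod 2) (by rw [Module.finrank_finsupp_self]; exact hQ) T o x
  refine h1.trans (Nat.mul_le_mul_left _ ?_)
  exact (Nat.pow_le_pow_left (Nat.le_succ C) _).trans (Nat.pow_le_pow_right (Nat.succ_pos C) (Nat.succ_le_succ hle))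

end Pool.Agent.U496.UP
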