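import Pool.Agent.U496.UP.Gen
import Pool.Agent.U496.UP.Mach
import Pool.Agent.H413R3.Part.Pt

/-!
# Multipartitions: `t = 4 ^ b - 1` and `t = 3 (4 ^ b - 1)`
-/

set_option autoImplicit false

namespace Pool.Agent.U496.UP

open Finset PowerSeries
open Pool.Agent.H397R2.PP Pool.Agent.H397R2.PP.TH Pool.Agent.R836.PP
open Pool.Agent.H413R3.Part (mp)

/-- the parity of the number of `t`-multipartitions -/
def mpar (t n : ℕ) : ZMod 2 := (mp t n : ZMod 2)

lemma mk_mpar (t : ℕ) : PowerSeries.mk (mpar t) =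
    (PowerSeries.mk fun n => (Fintype.card (Nat.Partition n) : ZMod 2)) ^ t := by
  ext n
  rw [coeff_mk, Pool.Agent.H413R3.Part.coeff_pow_eq]
  rfl

lemma four_pow (b : ℕ) : (4 : ℕ) ^ b = 2 ^ (2 * b) := by
  rw [pow_mul]
  norm_num

lemma four_le (b : ℕ) (hb : 1 ≤ b) : 4 ≤ 4 ^ b ∧ 4 ^ b % 2 = 0 := by
  obtain ⟨d, rfl⟩ := Nat.exists_eq_add_of_le hb
  have h1 : 1 ≤ 4 ^ d := Nat.one_le_pow _ _ (by norm_num)
  rw [pow_add, pow_one]
  omega

lemma even_two_pow (b x : ℕ) (hb : 1 ≤ b) : (2 ^ b * x) % 2 = 0 := by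
  obtain ⟨d, rfl⟩ := Nat.exists_eq_add_of_le hb
  rw [pow_add, pow_one, mul_assoc]
  exact Nat.mul_mod_right 2 _

theorem shapePent (b : ℕ) (hb : 1 ≤ b) : Shape (mpar (4 ^ b - 1)) 24 (4 ^ b) (fun k => pentagonal k)
    (fun k => 6 * k - 1) (ind (Sx (2 ^ (2 * b)) isPent)) (ind isPent) where
  mul := by
    rw [mk_mpar, ← pow_Sx, ← pent_eq, pow_eq (4 ^ b - 1) 1 (2 ^ (2 * b)) (by
      rw [← four_pow]; have := (four_le b hb).1; omega), pow_one]
  hq := by norm_num
  hB := (four_le b hb).1
  hBe := (four_le b hb).2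
  sq := by
    intro k hk
    have h := sq_pent k
    zify [(by omega : 1 ≤ 6 * k)]
    linarith
  odd := by intro k hk; omega
  le := by intro k hk; omega
  big := by intro k hk; omega
  strict := by intro k l hk hkl; omega
  one := by
    intro k _
    classical
    rw [coeff_ind, if_pos ⟨(k : ℤ), rfl⟩]
  isolated := by
    intro k i hk hi him hne
    classical
    rw [coeff_ind] at hne
    have h1 : isPent (pentagonal k - i) := by
      by_contra h2
      rw [if_neg h2] at hne
      exact hne rfl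
    obtain ⟨j, hj⟩ := h1
    exact gap k j i hi (by omega)
  shape := by
    intro n hne
    classical
    rw [coeff_ind] at hne
    have h1 : Sx (2 ^ (2 * b)) isPent n := by
      by_contra h2
      rw [if_neg h2] at hne
      exact hne rfl
    obtain ⟨k, hk, hP⟩ := h1
    obtain ⟨x, hx⟩ := (pent_iff k).1 hP
    refine ⟨2 ^ b * x, ?_, even_two_pow b x hb⟩
    rw [mul_pow, hx, hk, four_pow, ← pow_mul, mul_comm b 2]
    ring

theorem shapeTri (b : ℕ) (hb : 1 ≤ b) : Shape (mpar (3 * (4 ^ b - 1))) 8 (4 ^ b) (fun k => k * (k + 1) / 2)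
    (fun k => 2 * k + 1) (ind (Sx (2 ^ (2 * b)) isTri)) (ind isTri) where
  mul := by
    rw [mk_mpar, ← pow_Sx, psi_eq, ← pent_eq, ← pow_mul, pow_eq (3 * (4 ^ b - 1)) 3 (3 * 2 ^ (2 * b)) (by
      rw [← four_pow]; have := (four_le b hb).1; omega)]
  hq := by norm_num
  hB := (four_le b hb).1
  hBe := (four_le b hb).2
  sq := by
    intro k _
    have h := Nat.div_mul_cancel (Nat.even_mul_succ_self k).two_dvd
    nlinarith
  odd := by intro k hk; omega
  le := by intro k hk; omega
  big := by intro k hk; omega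
  strict := by intro k l hk hkl; omega
  one := by
    intro k _
    classical
    rw [coeff_ind, if_pos ⟨k, by
      rw [mul_comm]
      exact Nat.div_mul_cancel (Nat.even_mul_succ_self k).two_dvd⟩]
  isolated := by
    intro k i hk hi him hne
    classical
    rw [coeff_ind] at hne
    have h1 : isTri (k * (k + 1) / 2 - i) := by
      by_contra h2
      rw [if_neg h2] at hne
      exact hne rfl
    obtain ⟨j, hj⟩ := h1
    have h := Nat.div_mul_cancel (Nat.even_mul_succ_self k).two_dvd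
    have h3 : j * (j + 1) + 2 * i = k * (k + 1) := by omega
    have h4 : j < k := by
      by_contra h5
      rw [not_lt] at h5
      have : k * (k + 1) ≤ j * (j + 1) := Nat.mul_le_mul h5 (by omega)
      omega
    have h5 : j * (j + 1) ≤ (k - 1) * (k - 1 + 1) := Nat.mul_le_mul (by omega) (by omega)
    have h6 : (k - 1) * (k - 1 + 1) + 2 * k = k * (k + 1) := by
      obtain ⟨d, rfl⟩ := Nat.exists_eq_add_of_le hk
      simp only [Nat.add_sub_cancel_left]
      ring
    omega
  shape := by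
    intro n hne
    classical
    rw [coeff_ind] at hne
    have h1 : Sx (2 ^ (2 * b)) isTri n := by
      by_contra h2
      rw [if_neg h2] at hne
      exact hne rfl
    obtain ⟨k, hk, hP⟩ := h1
    obtain ⟨x, hx⟩ := (tri_iff k).1 hP
    refine ⟨2 ^ b * x, ?_, even_two_pow b x hb⟩
    rw [mul_pow, hx, hk, four_pow, ← pow_mul, mul_comm b 2]
    ring

theorem many_mpar (b : ℕ) (hb : 1 ≤ b) : Many (mpar (4 ^ b - 1)) ∧ Many (mpar (3 * (4 ^ b - 1))) := by
  constructor
  · refine many_of_shape (shapePent b hb) le_rfl fun K N hK k hk hkK => ?_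
    have h1 := two_mul_natCast_pentagonal k
    have h3 : (k : ℤ) * (3 * k - 1) ≤ 3 * (K : ℤ) ^ 2 := by
      have h4 : (k : ℤ) ≤ K := by exact_mod_cast hkK
      have h5 : (0 : ℤ) ≤ k := Int.natCast_nonneg k
      nlinarith
    have h4 : (3 * (K : ℤ) ^ 2) ≤ 2 * N := by exact_mod_cast hK
    have h5 : (pentagonal (k : ℤ) : ℤ) ≤ N := by linarith
    exact_mod_cast h5
  · refine many_of_shape (shapeTri b hb) (by norm_num) fun K N hK k hk hkK => ?_
    have h1 : k * (k + 1) ≤ K * (K + 1) := Nat.mul_le_mul hkK (by omega)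
    have h2 : K * (K + 1) ≤ 2 * K ^ 2 := by nlinarith
    omega

end Pool.Agent.U496.UP
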