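import Pool.Agent.U496.UP.Mach

/-!
# Linear machines with automatic inputs
-/

set_option autoImplicit false

namespace Pool.Agent.U496.UP

open Finset PowerSeries

/-- `u(n)` is computed by a finite automaton with at most `Q` states (transition function `δ`, initial
state `q`, output function `h`) which reads the digits of `n` in base `g` (`Nat.digits g n`, least
significant digit first, empty for `n = 0`), starting from the least significant one or starting from
the most significant one -/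
def Automatic (g Q : ℕ) (u : ℕ → ZMod 2) : Prop :=
  ∃ (s : ℕ) (δ : Fin s → ℕ → Fin s) (q : Fin s) (h : Fin s → ZMod 2), s ≤ Q ∧
    ((∀ n, u n = h ((Nat.digits g n).foldl δ q)) ∨
      (∀ n, u n = h ((Nat.digits g n).reverse.foldl δ q)))

/-- sums of shifted automatic functions with shifts less than `K` -/
def IsSum (G : Finset ℕ) (Q K : ℕ) (h : ℕ → ZMod 2) : Prop :=
  ∃ (L : ℕ) (u : Fin L → ℕ → ZMod 2) (t : Fin L → ℕ), (∀ z, ∃ g ∈ G, Automatic g Q (u z)) ∧ (∀ z, t z < K) ∧
    ∀ n, h n = ∑ z, u z (n + t z)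

lemma isSum_zero (G : Finset ℕ) (Q K : ℕ) : IsSum G Q K fun _ => 0 :=
  ⟨0, fun z => z.elim0, fun z => z.elim0, fun z => z.elim0, fun z => z.elim0, fun _ => by simp⟩

lemma IsSum.add {G : Finset ℕ} {Q K : ℕ} {h k : ℕ → ZMod 2} (hh : IsSum G Q K h) (hk : IsSum G Q K k) :
    IsSum G Q K fun n => h n + k n := by
  obtain ⟨L, u, t, h1, h2, h3⟩ := hh
  obtain ⟨L', u', t', h1', h2', h3'⟩ := hk
  refine ⟨L + L', Fin.append u u', Fin.append t t', ?_, ?_, ?_⟩
  · intro z
    refine Fin.addCases (fun i => ?_) (fun i => ?_) z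
    · rw [Fin.append_left]
      exact h1 i
    · rw [Fin.append_right]
      exact h1' i
  · intro z
    refine Fin.addCases (fun i => ?_) (fun i => ?_) z
    · rw [Fin.append_left]
      exact h2 i
    · rw [Fin.append_right]
      exact h2' i
  · intro n
    change h n + k n = _
    rw [Fin.sum_univ_add, h3, h3']
    simp only [Fin.append_left, Fin.append_right]

lemma IsSum.smul {G : Finset ℕ} {Q K : ℕ} {h : ℕ → ZMod 2} (hh : IsSum G Q K h) (c : ZMod 2) :
    IsSum G Q K fun n => c * h n := by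
  have hc : c = 0 ∨ c = 1 := by
    revert c
    decide
  rcases hc with rfl | rfl
  · simp only [zero_mul]
    exact isSum_zero G Q K
  · simp only [one_mul]
    exact hh

lemma IsSum.shift {G : Finset ℕ} {Q K : ℕ} {h : ℕ → ZMod 2} (hh : IsSum G Q K h) (j : ℕ) :
    IsSum G Q (K + j) fun n => h (n + j) := by
  obtain ⟨L, u, t, h1, h2, h3⟩ := hh
  refine ⟨L, u, fun z => t z + j, h1, fun z => Nat.add_lt_add_right (h2 z) j, fun n => ?_⟩
  change h (n + j) = _
  rw [h3]
  refine sum_congr rfl fun z _ => ?_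
  rw [show n + j + t z = n + (t z + j) by ring]

lemma IsSum.mono {G : Finset ℕ} {Q K K' : ℕ} {h : ℕ → ZMod 2} (hh : IsSum G Q K h) (hK : K ≤ K') :
    IsSum G Q K' h := by
  obtain ⟨L, u, t, h1, h2, h3⟩ := hh
  exact ⟨L, u, t, h1, fun z => (h2 z).trans_le hK, h3⟩

lemma IsSum.sum {G : Finset ℕ} {Q K : ℕ} {ι : Type} (s : Finset ι) (h : ι → ℕ → ZMod 2)
    (hh : ∀ i ∈ s, IsSum G Q K (h i)) : IsSum G Q K fun n => ∑ i ∈ s, h i n := by
  classical
  induction s using Finset.induction_on with
  | empty =>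
    simp only [sum_empty]
    exact isSum_zero G Q K
  | insert a s ha ih =>
    simp only [sum_insert ha]
    exact (hh a (mem_insert_self a s)).add (ih fun i hi => hh i (mem_insert_of_mem hi))

lemma isSum_one {G : Finset ℕ} {Q : ℕ} {u : ℕ → ZMod 2} (hu : ∃ g ∈ G, Automatic g Q u) : IsSum G Q 1 u :=
  ⟨1, fun _ => u, fun _ => 0, fun _ => hu, fun _ => one_pos, fun n => by simp⟩

/-- both values of every pattern plus automatic functions in every interval of linear length -/
def DeepA (f : ℕ → ZMod 2) (G : Finset ℕ) (Q : ℕ) : Prop := ∃ C : ℕ, ∀ (L : ℕ) (c : ℕ → ZMod 2),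
  (∃ i, i ≤ L ∧ c i ≠ 0) → ∀ h : ℕ → ZMod 2, IsSum G Q (L + 1) h → ∀ (κ : ZMod 2) (A : ℕ),
    ∃ n, A ≤ n ∧ n ≤ C * (A + L + 1) ∧ pat f c L n + h n = κ

/-- the number of the `n ≤ N` at which the linear machine `(T, o)` with the inputs `u_1, …, u_l` in the directions
`v_1, …, v_l` fails -/
noncomputable def failuresIn (f : ℕ → ZMod 2) {V : Type} [AddCommGroup V] [Module (ZMod 2) V]
    (T : V →ₗ[ZMod 2] V) (o : V →ₗ[ZMod 2] ZMod 2) {l : ℕ} (u : Fin l → ℕ → ZMod 2) (v : Fin l → V)
    (w : Fin l → ZMod 2) (x : ℕ → V) (N : ℕ) : ℕ :=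
  open Classical in
  ((range (N + 1)).filter fun n => x (n + 1) ≠ T (x n) + ∑ z, u z n • v z ∨
    o (x n) + ∑ z, u z n * w z ≠ f n).card

lemma run_in {V : Type} [AddCommGroup V] [Module (ZMod 2) V] (T : V →ₗ[ZMod 2] V) {l : ℕ}
    (u : Fin l → ℕ → ZMod 2) (v : Fin l → V) (x : ℕ → V) {G : Finset ℕ} {Q : ℕ}
    (hu : ∀ z, ∃ g ∈ G, Automatic g Q (u z)) (i : ℕ) : ∀ o : V →ₗ[ZMod 2] ZMod 2, ∃ h : ℕ → ZMod 2, IsSum G Q i h ∧
      ∀ n, (∀ j, j < i → x (n + j + 1) = T (x (n + j)) + ∑ z, u z (n + j) • v z) →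
        o (x (n + i)) = o ((T ^ i) (x n)) + h n := by
  induction i with
  | zero =>
    intro o
    exact ⟨fun _ => 0, isSum_zero G Q 0, fun n _ => by simp⟩
  | succ i ih =>
    intro o
    obtain ⟨h, h1, h2⟩ := ih (o.comp T)
    refine ⟨fun n => h n + ∑ z, o (v z) * u z (n + i), ?_, ?_⟩
    · refine (h1.mono (Nat.le_succ i)).add (IsSum.sum univ _ fun z _ => ?_)
      have h3 := (((isSum_one (hu z)).smul (o (v z))).shift i)
      rwa [add_comm 1 i] at h3
    · intro n hn
      have h3 := h2 n fun j hj => hn j (by omega)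
      rw [show n + (i + 1) = n + i + 1 by ring, hn i (Nat.lt_succ_self i), map_add, map_sum]
      rw [LinearMap.comp_apply, LinearMap.comp_apply] at h3
      rw [h3, pow_succ', Module.End.mul_apply, add_assoc]
      congr 1
      congr 1
      refine sum_congr rfl fun z _ => ?_
      rw [map_smul, smul_eq_mul, mul_comm]

/-- the count of the failures -/
lemma log_count (C N S : ℕ) (bad : Finset ℕ)
    (h : ∀ A, C * (A + S + 1) ≤ N → ∃ b ∈ bad, A ≤ b ∧ b ≤ C * (A + S + 1)) :
    N ≤ (S + 1) * (2 * C + 4) ^ (bad.card + 1) := by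
  classical
  set K := 2 * C + 4 with hK
  have key : ∀ m : ℕ, (bad.filter fun b => b < K ^ m * (S + 1)).card < m → N ≤ K ^ m * (S + 1) := by
    intro m
    induction m with
    | zero => intro h0; exact absurd h0 (Nat.not_lt_zero _)
    | succ m ih =>
      intro hm
      by_contra hN
      rw [not_le] at hN
      have hmono : K ^ m * (S + 1) ≤ K ^ (m + 1) * (S + 1) :=
        Nat.mul_le_mul_right _ (Nat.pow_le_pow_right (by omega) (Nat.le_succ m))
      have h1 : m ≤ (bad.filter fun b => b < K ^ m * (S + 1)).card := by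
        by_contra h2
        have := ih (by omega)
        omega
      have hSm : S + 1 ≤ K ^ m * (S + 1) := Nat.le_mul_of_pos_left _ (Nat.pos_of_ne_zero (by positivity))
      have h7 : C * (K ^ m * (S + 1) + S + 1) ≤ C * (2 * (K ^ m * (S + 1))) :=
        Nat.mul_le_mul_left _ (by omega)
      have h8 : K ^ (m + 1) * (S + 1) = C * (2 * (K ^ m * (S + 1))) + 4 * (K ^ m * (S + 1)) := by
        rw [pow_succ, hK]
        ring
      obtain ⟨b, hb, h3, h4⟩ := h (K ^ m * (S + 1)) (by omega)
      have h5 : insert b (bad.filter fun b => b < K ^ m * (S + 1)) ⊆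
          bad.filter fun b => b < K ^ (m + 1) * (S + 1) := by
        intro b' hb'
        rw [mem_insert, mem_filter] at hb'
        rw [mem_filter]
        rcases hb' with rfl | ⟨hb1, hb2⟩
        · exact ⟨hb, by omega⟩
        · exact ⟨hb1, by omega⟩
      have h9 := card_le_card h5
      rw [card_insert_of_notMem (by
        rw [mem_filter]
        rintro ⟨-, h10⟩
        omega)] at h9
      omega
  rw [mul_comm]
  exact key (bad.card + 1) (Nat.lt_succ_of_le (card_le_card (filter_subset _ _)))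

theorem failuresIn_log {f : ℕ → ZMod 2} {G : Finset ℕ} {Q : ℕ} (hf : DeepA f G Q) : ∃ C : ℕ, ∀ (N S : ℕ) (V : Type)
    [AddCommGroup V] [Module (ZMod 2) V] [FiniteDimensional (ZMod 2) V], Module.finrank (ZMod 2) V ≤ S →
      ∀ (T : V →ₗ[ZMod 2] V) (o : V →ₗ[ZMod 2] ZMod 2) (l : ℕ) (u : Fin l → ℕ → ZMod 2) (v : Fin l → V)
        (w : Fin l → ZMod 2) (x : ℕ → V), (∀ z, ∃ g ∈ G, Automatic g Q (u z)) →
        N ≤ (S + 1) * C ^ (failuresIn f T o u v w x N + 1) := by
  classical
  obtain ⟨C, hC⟩ := hf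
  refine ⟨2 * (C + 1) + 4, fun N S V _ _ _ hV T o l u v w x hu => ?_⟩
  unfold failuresIn
  refine log_count (C + 1) N S _ fun A hA => ?_
  set d := Module.finrank (ZMod 2) V with hd
  have hdeg : T.charpoly.natDegree = d := T.charpoly_natDegree
  choose h h1 h2 using fun i => run_in T u v x hu i o
  set H : ℕ → ZMod 2 := fun n => ∑ i ∈ range (d + 1), T.charpoly.coeff i * (h i n + ∑ z, w z * u z (n + i)) with hH
  have hHs : IsSum G Q (d + 1) H := by
    refine IsSum.sum _ _ fun i hi => IsSum.smul ?_ _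
    rw [mem_range] at hi
    refine ((h1 i).mono (by omega)).add (IsSum.sum univ _ fun z _ => ?_)
    have h3 := (((isSum_one (hu z)).smul (w z)).shift i)
    exact h3.mono (by omega)
  obtain ⟨n, h3, h4, h5⟩ := hC d (fun i => T.charpoly.coeff i) (charpoly_ne T) H hHs 1 A
  have hle : n + d ≤ (C + 1) * (A + S + 1) := by
    have h6 : C * (A + d + 1) ≤ C * (A + S + 1) := Nat.mul_le_mul_left _ (by omega)
    have h7 : (C + 1) * (A + S + 1) = C * (A + S + 1) + (A + S + 1) := by ring
    omega
  by_contra hcon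
  push Not at hcon
  have hgood : ∀ i, i ≤ d → x (n + i + 1) = T (x (n + i)) + ∑ z, u z (n + i) • v z ∧
      o (x (n + i)) + ∑ z, u z (n + i) * w z = f (n + i) := by
    intro i hi
    by_contra hbad
    have h6 : n + i ∈ (range (N + 1)).filter fun n => x (n + 1) ≠ T (x n) + ∑ z, u z n • v z ∨
        o (x n) + ∑ z, u z n * w z ≠ f n := by
      refine mem_filter.2 ⟨mem_range.2 (by omega), ?_⟩
      by_contra h7
      push Not at h7
      exact hbad h7
    have := hcon (n + i) h6 (by omega)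
    omega
  have hzero : pat f (fun i => T.charpoly.coeff i) d n + H n = 0 := by
    have h6 : pat f (fun i => T.charpoly.coeff i) d n = o (Polynomial.aeval T T.charpoly (x n)) + H n := by
      rw [Polynomial.aeval_eq_sum_range, hdeg, LinearMap.sum_apply, map_sum, hH]
      unfold pat
      rw [← sum_add_distrib]
      apply sum_congr rfl
      intro i hi
      rw [mem_range] at hi
      rw [LinearMap.smul_apply, map_smul, smul_eq_mul, ← mul_add, ← (hgood i (by omega)).2,
        h2 i n (fun j hj => (hgood j (by omega)).1), add_assoc]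
      congr 3
      exact sum_congr rfl fun z _ => mul_comm _ _
    rw [h6, LinearMap.aeval_self_charpoly]
    have h7 : ∀ a : ZMod 2, a + a = 0 := by decide
    simp [h7]
  rw [hzero] at h5
  exact zero_ne_one h5

/-- the cost of an automaton which predicts `a`, where `φ (a n) + y n` should be `f n` -/
noncomputable def costIn (f : ℕ → ZMod 2) {P A : Type} (next : P → A → P) (guess : P → A) (q₀ : P) (a : ℕ → A)
    (φ : A → ZMod 2) (y : ℕ → ZMod 2) (N : ℕ) : ℕ :=
  open Classical in
  ((range (N + 1)).filter fun n => guess (state next q₀ a n) ≠ a n).card +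
    ((range (N + 1)).filter fun n => φ (a n) + y n ≠ f n).card

lemma failuresIn_le (f : ℕ → ZMod 2) {V : Type} [AddCommGroup V] [Module (ZMod 2) V]
    (T : V →ₗ[ZMod 2] V) (o : V →ₗ[ZMod 2] ZMod 2) {l : ℕ} (u : Fin l → ℕ → ZMod 2) (v : Fin l → V)
    (w : Fin l → ZMod 2) (x : ℕ → V) (N : ℕ) (s : Finset ℕ)
    (h : ∀ n, n ≤ N → (x (n + 1) ≠ T (x n) + ∑ z, u z n • v z ∨ o (x n) + ∑ z, u z n * w z ≠ f n) → n ∈ s) :
    failuresIn f T o u v w x N ≤ s.card := by
  classical
  unfold failuresIn
  refine card_le_card fun n hn => ?_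
  obtain ⟨h1, h2⟩ := mem_filter.1 hn
  rw [mem_range] at h1
  exact h n (by omega) h2

theorem costIn_log {f : ℕ → ZMod 2} {G : Finset ℕ} {Q : ℕ} (hf : DeepA f G Q) : ∃ C : ℕ, ∀ (N S : ℕ) (P A : Type)
    [Fintype P], Fintype.card P ≤ S → ∀ (next : P → A → P) (guess : P → A) (q₀ : P) (a : ℕ → A) (φ : A → ZMod 2)
      (l : ℕ) (u : Fin l → ℕ → ZMod 2), (∀ z, ∃ g ∈ G, Automatic g Q (u z)) →
        N ≤ (S + 1) * C ^ (costIn f next guess q₀ a φ (fun n => ∑ z, u z n) N + 1) := by
  classical
  obtain ⟨C, h⟩ := failuresIn_log hf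
  refine ⟨C + 1, fun N S P A _ hP next guess q₀ a φ l u hu => ?_⟩
  have hle : failuresIn f (Finsupp.lmapDomain (ZMod 2) (ZMod 2) fun q => next q (guess q))
      (Finsupp.linearCombination (ZMod 2) fun q => φ (guess q)) u (fun _ => (0 : P →₀ ZMod 2)) (fun _ => 1)
      (fun n => Finsupp.single (state next q₀ a n) 1) N ≤ costIn f next guess q₀ a φ (fun n => ∑ z, u z n) N := by
    unfold costIn
    refine le_trans (failuresIn_le _ _ _ _ _ _ _ _ _ ?_) (card_union_le _ _)
    intro n hn hn2
    have hn1 : n ∈ range (N + 1) := mem_range.2 (by omega)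
    by_cases h1 : guess (state next q₀ a n) = a n
    · by_cases h2 : φ (a n) + ∑ z, u z n = f n
      · exfalso
        rcases hn2 with h3 | h3
        · apply h3
          simp only [smul_zero, sum_const_zero, add_zero]
          rw [Finsupp.lmapDomain_apply, Finsupp.mapDomain_single]
          change Finsupp.single (next (state next q₀ a n) (a n)) 1 = _
          rw [h1]
        · apply h3
          simp only [mul_one]
          rw [Finsupp.linearCombination_single, one_smul, h1, h2]
      · exact mem_union_right _ (mem_filter.2 ⟨hn1, h2⟩)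
    · exact mem_union_left _ (mem_filter.2 ⟨hn1, h1⟩)
  have h1 := h N S (P →₀ ZMod 2) (by rw [Module.finrank_finsupp_self]; exact hP)
    (Finsupp.lmapDomain (ZMod 2) (ZMod 2) fun q => next q (guess q))
    (Finsupp.linearCombination (ZMod 2) fun q => φ (guess q)) l u (fun _ => (0 : P →₀ ZMod 2)) (fun _ => 1)
    (fun n => Finsupp.single (state next q₀ a n) 1) hu
  refine h1.trans (Nat.mul_le_mul_left _ ?_)
  exact (Nat.pow_le_pow_left (Nat.le_succ C) _).trans (Nat.pow_le_pow_right (Nat.succ_pos C) (Nat.succ_le_succ hle))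

end Pool.Agent.U496.UP
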