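import Pool.Agent.U496.UP.AutIn
import Pool.Agent.N493.PC5
import Pool.Agent.Y627.PT.Eta
import Pool.Agent.TH693.QQ.Main4
import Pool.Agent.TH693.QQ.QD1

/-!
# Multipartitions and automatic functions, all odd `t`
-/

set_option autoImplicit false

namespace Pool.Agent.U496.UP

open Finset PowerSeries

/-- all odd `t` -/
theorem deepA_mp (t : ℕ) (ht : Odd t) (G : Finset ℕ) (hG : ∀ g ∈ G, 2 ≤ g) (Q : ℕ) :
    DeepA (fun n => (Pool.Agent.H413R3.Part.mp t n : ZMod 2)) G Q := by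
  obtain ⟨C, hC⟩ := Pool.Agent.N493.PB.main_all (Y := Unit) (fun _ => Pool.Agent.TH693.PP.P ^ t)
    (fun _ => (t : ℤ) * 1) (fun _ => Pool.Agent.Y627.PT.sec_pow Pool.Agent.Y627.PT.sec_P t) (fun _ => 1)
    (fun _ => one_pos) 0 (fun z => z.elim0) (fun z => z.elim0) G hG 1 one_pos Q
  obtain ⟨C', hC'⟩ := Pool.Agent.TH693.QQ.final_mp Pool.Agent.TH693.QQ.D1.qd1 ht 1 0 Nat.one_pos
    (Or.inl ⟨0, rfl⟩)
  have hpat : ∀ (c : ℕ → ZMod 2) (L n : ℕ), pat (fun n => (Pool.Agent.H413R3.Part.mp t n : ZMod 2)) c L n =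
      ∑ i ∈ range (L + 1), c i * coeff (1 * n + i) (Pool.Agent.TH693.PP.P ^ t) := by
    intro c L n
    unfold pat
    refine sum_congr rfl fun i _ => ?_
    rw [one_mul, Pool.Agent.TH693.QQ.coeff_P_pow]
  refine ⟨C, fun L c hc h hh κ A => ?_⟩
  obtain ⟨M, u, s, h1, h2, h3⟩ := hh
  obtain ⟨n, h4, h5, -, h6⟩ := hC (L + 1) (fun _ i => c i) (fun z => z.elim0) 0 (by
    obtain ⟨n, h7, h8, h9⟩ := hC' L (fun i => c i) (by
      obtain ⟨i, hi, hne⟩ := hc
      intro h0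
      exact hne (congrFun h0 ⟨i, by omega⟩)) 1 (C * (L + 1))
    refine ⟨n, h7, by rw [Nat.mod_one, Nat.mod_one], ?_⟩
    rw [Fintype.sum_unique]
    rw [← hpat, pat, Finset.sum_range]
    have h10 : ∑ i : Fin (L + 1), c i * (Pool.Agent.H413R3.Part.mp t (n + i) : ZMod 2) = 1 := by
      rw [← h9]
      refine Finset.sum_congr rfl fun i _ => ?_
      rw [one_mul, add_zero]
    rw [h10]
    exact one_ne_zero) M u s h1 h2 κ A
  refine ⟨n, h4, by rw [← add_assoc] at h5; exact h5, ?_⟩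
  rw [Fintype.sum_unique, Fin.sum_univ_zero, add_zero, ← hpat, ← h3] at h6
  exact h6

end Pool.Agent.U496.UP
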