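import Pool.Agent.H397R2.PP.A
import Pool.Agent.Helper112.Arith

/-!
# Linear parity patterns of the partition function, uniformly in the length
-/

set_option autoImplicit false

namespace Pool.Agent.U496.UP

open Finset PowerSeries

/-- the parity of the number of partitions of `n` -/
noncomputable def p2 (n : ℕ) : ZMod 2 := (Fintype.card (Nat.Partition n) : ZMod 2)

/-- the value of the linear pattern `c 0, …, c L` of the sequence `f` at `n` -/
noncomputable def pat (f c : ℕ → ZMod 2) (L n : ℕ) : ZMod 2 := ∑ i ∈ range (L + 1), c i * f (n + i)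

lemma eq_one_of_ne : ∀ x : ZMod 2, x ≠ 0 → x = 1 := by decide

/-- the polynomial of the pattern -/
noncomputable def Rs (c : ℕ → ZMod 2) (L : ℕ) : (ZMod 2)⟦X⟧ :=
  PowerSeries.mk fun i => if i ≤ L then c (L - i) else 0

lemma coeff_RF (c : ℕ → ZMod 2) (L n : ℕ) :
    coeff (n + L) (Rs c L * PowerSeries.mk p2) = pat p2 c L n := by
  rw [coeff_mul, Finset.Nat.sum_antidiagonal_eq_sum_range_succ_mk]
  simp only [Rs, coeff_mk]
  have h1 : ∑ i ∈ range (L + 1), (if i ≤ L then c (L - i) else 0) * p2 (n + L - i) =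
      ∑ i ∈ range (n + L).succ, (if i ≤ L then c (L - i) else 0) * p2 (n + L - i) := by
    apply sum_subset
    · intro i hi
      rw [mem_range] at hi ⊢
      omega
    · intro i _ hi
      rw [mem_range, not_lt] at hi
      rw [if_neg (by omega), zero_mul]
  rw [← h1, pat, ← sum_range_reflect (fun i => c i * p2 (n + i)) (L + 1)]
  apply sum_congr rfl
  intro i hi
  rw [mem_range] at hi
  rw [if_pos (by omega), show L + 1 - 1 - i = L - i by omega, show n + L - i = n + (L - i) by omega]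

lemma p2_zero : p2 0 = 1 := by
  have h := congrArg (coeff 0) (Pool.Agent.H397R2.PP.mk_card_mul_pentagonalSeries (ZMod 2))
  have h0 : pentagonal 0 = 0 := by simp [pentagonal]
  have h1 : coeff 0 (pentagonalSeries (ZMod 2)) = 1 := by
    have := coeff_pentagonalSeries_pentagonal (R := ZMod 2) 0
    rw [h0] at this
    rw [this]
    simp
  rw [coeff_zero_eq_constantCoeff_apply, map_mul, ← coeff_zero_eq_constantCoeff_apply,
    ← coeff_zero_eq_constantCoeff_apply, h1, mul_one, coeff_mk] at h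
  rw [p2, h]
  simp

lemma coeff_pent (k : ℤ) : coeff (pentagonal k) (pentagonalSeries (ZMod 2)) = 1 := by
  have h : coeff (pentagonal k) (pentagonalSeries (ZMod 2)) ≠ 0 := by
    rw [Ne, coeff_pentagonalSeries_eq_zero_iff, not_not]
    exact ⟨k, rfl⟩
  exact eq_one_of_ne _ h

lemma sq_pent (k : ℤ) : 24 * (pentagonal k : ℤ) + 1 = (6 * k - 1) ^ 2 := by
  have := two_mul_natCast_pentagonal k
  linear_combination 12 * this

/-- `u = 6 k - 1` and `v = |6 j - 1|` -/
lemma uv (k : ℕ) (j : ℤ) (a : ℕ) (ha : 1 ≤ a) (h : pentagonal k = a + pentagonal j) :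
    (6 * (k : ℤ) - 1 - |6 * j - 1|) * (6 * (k : ℤ) - 1 + |6 * j - 1|) = 24 * a ∧
      0 < 6 * (k : ℤ) - 1 - |6 * j - 1| := by
  have h1 := sq_pent k
  have h2 := sq_pent j
  have h3 : (pentagonal (k : ℤ) : ℤ) = a + pentagonal j := by exact_mod_cast h
  have hv : |6 * j - 1| ^ 2 = (6 * j - 1) ^ 2 := sq_abs _
  have hv0 : 0 ≤ |6 * j - 1| := abs_nonneg _
  have ha' : (1 : ℤ) ≤ a := by exact_mod_cast ha
  have hk : 1 ≤ k := by
    rcases Nat.eq_zero_or_pos k with h0 | h0
    · subst h0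
      have h4 : pentagonal ((0 : ℕ) : ℤ) = 0 := by simp [pentagonal]
      rw [h4] at h
      omega
    · exact h0
  have hk' : (1 : ℤ) ≤ k := by exact_mod_cast hk
  have h5 : (6 * (k : ℤ) - 1 - |6 * j - 1|) * (6 * (k : ℤ) - 1 + |6 * j - 1|) = 24 * a := by
    linear_combination h2 - h1 - hv + 24 * h3
  refine ⟨h5, ?_⟩
  have h6 : 0 < 6 * (k : ℤ) - 1 + |6 * j - 1| := by linarith
  by_contra h7
  rw [not_lt] at h7
  have := mul_nonpos_of_nonpos_of_nonneg h7 h6.le
  linarith

lemma gap (k : ℕ) (j : ℤ) (a : ℕ) (ha : 1 ≤ a) (h : pentagonal k = a + pentagonal j) : k ≤ 2 * a := by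
  obtain ⟨h1, h2⟩ := uv k j a ha h
  have hv0 : 0 ≤ |6 * j - 1| := abs_nonneg _
  have hk0 : (0 : ℤ) ≤ k := Int.natCast_nonneg k
  by_contra hcon
  have h3 : 2 * (a : ℤ) + 1 ≤ k := by exact_mod_cast (by omega : 2 * a + 1 ≤ k)
  have h4 : 1 * (6 * (k : ℤ) - 1 + |6 * j - 1|) ≤
      (6 * (k : ℤ) - 1 - |6 * j - 1|) * (6 * (k : ℤ) - 1 + |6 * j - 1|) :=
    mul_le_mul_of_nonneg_right (by omega) (by omega)
  -- `u + v ≥ 2 u - (u - v)`; if `u - v` is large, then the product is large as well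
  rcases le_or_gt (6 * (k : ℤ) - 1 - |6 * j - 1|) 2 with h5 | h5
  · have h6 : 12 * (k : ℤ) - 4 ≤ 6 * (k : ℤ) - 1 + |6 * j - 1| := by linarith
    linarith
  · have h6 : 3 * (6 * (k : ℤ) - 1 + |6 * j - 1|) ≤
        (6 * (k : ℤ) - 1 - |6 * j - 1|) * (6 * (k : ℤ) - 1 + |6 * j - 1|) :=
      mul_le_mul_of_nonneg_right (by omega) (by omega)
    linarith

lemma fiber (a : ℕ) (ha : 1 ≤ a) (s : Finset ℕ) (hs : ∀ k ∈ s, ∃ j : ℤ, pentagonal k = a + pentagonal j) :
    s.card ≤ (24 * a).divisors.card := by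
  classical
  choose! j hj using hs
  refine card_le_card_of_injOn (fun k => (6 * (k : ℤ) - 1 - |6 * j k - 1|).toNat) ?_ ?_
  · intro k hk
    obtain ⟨h1, h2⟩ := uv k (j k) a ha (hj k hk)
    rw [Finset.mem_coe, Nat.mem_divisors]
    refine ⟨?_, by omega⟩
    rw [← Int.natCast_dvd_natCast, Int.toNat_of_nonneg h2.le]
    exact ⟨_, by push_cast; exact h1.symm⟩
  · intro k hk k' hk' hkk
    obtain ⟨h1, h2⟩ := uv k (j k) a ha (hj k hk)
    obtain ⟨h3, h4⟩ := uv k' (j k') a ha (hj k' hk')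
    have h5 : 6 * (k : ℤ) - 1 - |6 * j k - 1| = 6 * (k' : ℤ) - 1 - |6 * j k' - 1| := by
      have := congrArg (fun n : ℕ => (n : ℤ)) hkk
      simp only at this
      rw [Int.toNat_of_nonneg h2.le, Int.toNat_of_nonneg h4.le] at this
      exact this
    rw [← h5, ← h1] at h3
    have h6 := mul_left_cancel₀ h2.ne' h3
    have h7 : (k : ℤ) = k' := by linarith
    exact_mod_cast h7

/-- **The shift.** -/
lemma exists_shift (c : ℕ → ZMod 2) (L : ℕ) (hc : c L = 1) (k : ℕ) (hk : 2 * L + 2 ≤ k) :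
    ∃ h : ℕ, pat p2 c L h = 1 ∧ ∃ j : ℤ, pentagonal k = (h + L) + pentagonal j ∧ 1 ≤ h + L := by
  have hkey : Rs c L * PowerSeries.mk p2 * pentagonalSeries (ZMod 2) = Rs c L := by
    rw [mul_assoc]
    have := Pool.Agent.H397R2.PP.mk_card_mul_pentagonalSeries (ZMod 2)
    have h2 : PowerSeries.mk p2 = PowerSeries.mk fun n => (Fintype.card (Nat.Partition n) : ZMod 2) := rfl
    rw [h2, this, mul_one]
  have hpk : k ≤ 2 * pentagonal k := by
    have h1 := two_mul_natCast_pentagonal k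
    have h2 : (1 : ℤ) ≤ k := by exact_mod_cast (by omega : 1 ≤ k)
    have h3 : (k : ℤ) * 1 ≤ k * (3 * k - 1) := mul_le_mul_of_nonneg_left (by linarith) (by linarith)
    rw [← h1] at h3
    exact_mod_cast (by linarith : (k : ℤ) ≤ 2 * (pentagonal (k : ℤ) : ℤ))
  have hco := congrArg (coeff (pentagonal k)) hkey
  rw [coeff_mul, Finset.Nat.sum_antidiagonal_eq_sum_range_succ_mk, sum_range_succ'] at hco
  have hR : coeff (pentagonal k) (Rs c L) = 0 := by
    rw [Rs, coeff_mk, if_neg (by omega)]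
  have hG0 : coeff 0 (Rs c L * PowerSeries.mk p2) = 1 := by
    rw [coeff_zero_eq_constantCoeff_apply, map_mul, ← coeff_zero_eq_constantCoeff_apply,
      ← coeff_zero_eq_constantCoeff_apply, Rs, coeff_mk, coeff_mk, if_pos (Nat.zero_le _), Nat.sub_zero, hc,
      p2_zero, mul_one]
  simp only at hco
  rw [hR, hG0, Nat.sub_zero, coeff_pent, mul_one] at hco
  have hex : ∃ i ∈ range (pentagonal k), coeff (i + 1) (Rs c L * PowerSeries.mk p2) *
      coeff (pentagonal k - (i + 1)) (pentagonalSeries (ZMod 2)) ≠ 0 := by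
    by_contra hcon
    push Not at hcon
    rw [sum_eq_zero hcon, zero_add] at hco
    exact one_ne_zero hco
  obtain ⟨i, hi, hne⟩ := hex
  rw [mem_range] at hi
  have h1 : coeff (i + 1) (Rs c L * PowerSeries.mk p2) ≠ 0 := left_ne_zero_of_mul hne
  have h2 : coeff (pentagonal k - (i + 1)) (pentagonalSeries (ZMod 2)) ≠ 0 := right_ne_zero_of_mul hne
  rw [Ne, coeff_pentagonalSeries_eq_zero_iff, not_not] at h2
  obtain ⟨j, hj⟩ := h2
  have h3 : pentagonal k = (i + 1) + pentagonal j := by omega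
  have h4 := gap k j (i + 1) (by omega) h3
  refine ⟨i + 1 - L, ?_, j, by omega, by omega⟩
  rw [← coeff_RF, show i + 1 - L + L = i + 1 by omega]
  exact eq_one_of_ne _ h1

/-- **Counting the odd values of a pattern.** -/
theorem count (c : ℕ → ZMod 2) (L : ℕ) (hc : c L = 1) (K N D : ℕ) (hKN : 3 * K ^ 2 ≤ 2 * N)
    (hD : ∀ a, 1 ≤ a → a ≤ N → (24 * a).divisors.card ≤ D) :
    K ≤ 2 * L + 1 + D * ((range (N + 1 - L)).filter fun n => pat p2 c L n = 1).card := by
  classical
  have hex : ∀ k ∈ Ioc (2 * L + 1) K, ∃ h : ℕ, pat p2 c L h = 1 ∧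
      ∃ j : ℤ, pentagonal k = (h + L) + pentagonal j ∧ 1 ≤ h + L := by
    intro k hk
    exact exists_shift c L hc k (by have := (mem_Ioc.1 hk).1; omega)
  choose! h hh using hex
  have hle : ∀ k ∈ Ioc (2 * L + 1) K, h k + L ≤ N := by
    intro k hk
    obtain ⟨-, j, hj, -⟩ := hh k hk
    have h1 := two_mul_natCast_pentagonal k
    have h2 := (mem_Ioc.1 hk).2
    have h3 : (k : ℤ) * (3 * k - 1) ≤ 3 * (K : ℤ) ^ 2 := by
      have h4 : (k : ℤ) ≤ K := by exact_mod_cast h2
      have h5 : (0 : ℤ) ≤ k := Int.natCast_nonneg k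
      nlinarith
    have h4 : (3 * (K : ℤ) ^ 2) ≤ 2 * N := by exact_mod_cast hKN
    have h5 : (pentagonal (k : ℤ) : ℤ) ≤ N := by linarith
    have h6 : pentagonal (k : ℤ) ≤ N := by exact_mod_cast h5
    omega
  have hmain := card_le_mul_card_image_of_maps_to (s := Ioc (2 * L + 1) K)
    (t := (range (N + 1 - L)).filter fun n => pat p2 c L n = 1) (f := h) (fun k hk => by
      rw [mem_filter, mem_range]
      have := hle k hk
      exact ⟨by omega, (hh k hk).1⟩) D (fun b hb => by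
      rw [mem_filter, mem_range] at hb
      by_cases hb0 : 1 ≤ b + L
      · refine (fiber (b + L) hb0 _ fun k hk => ?_).trans (hD (b + L) hb0 (by omega))
        rw [mem_filter] at hk
        obtain ⟨-, j, hj, -⟩ := hh k hk.1
        rw [hk.2] at hj
        exact ⟨j, hj⟩
      · have : ((Ioc (2 * L + 1) K).filter fun a => h a = b) = ∅ := by
          rw [filter_eq_empty_iff]
          intro k hk hkb
          obtain ⟨-, j, -, h1⟩ := hh k hk
          rw [hkb] at h1
          exact hb0 h1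
        rw [this]
        exact Nat.zero_le _)
  rw [Nat.card_Ioc] at hmain
  omega

end Pool.Agent.U496.UP
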