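import Pool.Agent.U496.UP.Main
import Pool.Agent.R836.PP.Good

/-!
# The same for series `F` with `F Θ = Y`, where the exponents of `Θ` and `Y` are shifted squares
-/

set_option autoImplicit false

namespace Pool.Agent.U496.UP

open Finset PowerSeries

lemma coeff_Rs (f c : ℕ → ZMod 2) (L n : ℕ) :
    coeff (n + L) (Rs c L * PowerSeries.mk f) = pat f c L n := by
  rw [coeff_mul, Finset.Nat.sum_antidiagonal_eq_sum_range_succ_mk]
  simp only [Rs, coeff_mk]
  have h1 : ∑ i ∈ range (L + 1), (if i ≤ L then c (L - i) else 0) * f (n + L - i) =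
      ∑ i ∈ range (n + L).succ, (if i ≤ L then c (L - i) else 0) * f (n + L - i) := by
    apply sum_subset
    · intro i hi
      rw [mem_range] at hi ⊢
      omega
    · intro i _ hi
      rw [mem_range, not_lt] at hi
      rw [if_neg (by omega), zero_mul]
  rw [← h1, pat, ← sum_range_reflect (fun i => c i * f (n + i)) (L + 1)]
  apply sum_congr rfl
  intro i hi
  rw [mem_range] at hi
  rw [if_pos (by omega), show L + 1 - 1 - i = L - i by omega, show n + L - i = n + (L - i) by omega]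

/-- `F Θ = Y`, the exponents of `Θ` and some isolated exponents `m k` of `Y` are shifted squares -/
structure Shape (f : ℕ → ZMod 2) (q B : ℕ) (m u : ℕ → ℕ) (Θ Y : (ZMod 2)⟦X⟧) : Prop where
  mul : PowerSeries.mk f * Θ = Y
  hq : 1 ≤ q
  hB : 4 ≤ B
  hBe : B % 2 = 0
  sq : ∀ k, 1 ≤ k → q * m k + 1 = u k ^ 2
  odd : ∀ k, 1 ≤ k → u k % 2 = 1
  le : ∀ k, 1 ≤ k → k ≤ u k
  big : ∀ k, 1 ≤ k → q * k ≤ 4 * u k + 4
  strict : ∀ k l, 1 ≤ k → k < l → u k < u l
  one : ∀ k, 1 ≤ k → coeff (m k) Y = 1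
  isolated : ∀ k i, 1 ≤ k → 1 ≤ i → i ≤ m k → coeff (m k - i) Y ≠ 0 → k ≤ 2 * i
  shape : ∀ n, coeff n Θ ≠ 0 → ∃ w : ℕ, q * n + B = w ^ 2 ∧ w % 2 = 0

variable {f : ℕ → ZMod 2} {q B : ℕ} {m u : ℕ → ℕ} {Θ Y : (ZMod 2)⟦X⟧}

lemma uw (h : Shape f q B m u Θ Y) (k a w : ℕ) (hk : B ≤ k) (ha : a ≤ m k) (hw : q * (m k - a) + B = w ^ 2)
    (hwe : w % 2 = 0) : w < u k ∧ (((u k : ℤ) - w) * ((u k : ℤ) + w) = q * a + 1 - B) ∧ k ≤ 2 * a := by
  have hB := h.hB
  have hk1 : 1 ≤ k := by omega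
  have hsq := h.sq k hk1
  have hle := h.le k hk1
  have hodd := h.odd k hk1
  have hbig := h.big k hk1
  have e1 : (q : ℤ) * m k + 1 = (u k : ℤ) ^ 2 := by exact_mod_cast hsq
  have e2 : (q : ℤ) * ((m k : ℤ) - a) + B = (w : ℤ) ^ 2 := by
    have : ((q * (m k - a) + B : ℕ) : ℤ) = ((w ^ 2 : ℕ) : ℤ) := by rw [hw]
    push_cast [Nat.cast_sub ha] at this
    exact this
  have e3 : ((u k : ℤ) - w) * ((u k : ℤ) + w) = q * a + 1 - B := by linear_combination e2 - e1
  have hqa : (0 : ℤ) ≤ q * a := by positivity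
  have hBk : (B : ℤ) ≤ u k := by exact_mod_cast (by omega : B ≤ u k)
  have hB' : (4 : ℤ) ≤ B := by exact_mod_cast hB
  have hlt : w < u k := by
    by_contra hcon
    have h1 : u k + 1 ≤ w := by omega
    have h2 : (u k : ℤ) + 1 ≤ w := by exact_mod_cast h1
    nlinarith
  refine ⟨hlt, e3, ?_⟩
  have h1 : (w : ℤ) + 1 ≤ u k := by exact_mod_cast hlt
  have hw0 : (0 : ℤ) ≤ w := Int.natCast_nonneg w
  have h2 : 2 * (u k : ℤ) + 2 ≤ q * a := by nlinarith
  have h3 : (q : ℤ) * k ≤ 4 * u k + 4 := by exact_mod_cast hbig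
  have h4 : (q : ℤ) * k ≤ q * (2 * a) := by linarith
  have h5 : (0 : ℤ) < q := by exact_mod_cast h.hq
  have h6 := le_of_mul_le_mul_left h4 h5
  exact_mod_cast h6

lemma fiberG (h : Shape f q B m u Θ Y) (a : ℕ) (s : Finset ℕ)
    (hs : ∀ k ∈ s, B ≤ k ∧ a ≤ m k ∧ ∃ w : ℕ, q * (m k - a) + B = w ^ 2 ∧ w % 2 = 0) :
    s.card ≤ (q * a + 1 - B).divisors.card := by
  classical
  rcases s.eq_empty_or_nonempty with h0 | h0
  · rw [h0, card_empty]
    exact Nat.zero_le _
  have hs1 : ∀ k ∈ s, ∃ w : ℕ, q * (m k - a) + B = w ^ 2 ∧ w % 2 = 0 := fun k hk => (hs k hk).2.2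
  choose! w hw using hs1
  have key : ∀ k ∈ s, w k < u k ∧ (u k - w k) * (u k + w k) = q * a + 1 - B ∧ 0 < q * a + 1 - B := by
    intro k hk
    obtain ⟨h1, h2, -⟩ := uw h k a (w k) (hs k hk).1 (hs k hk).2.1 (hw k hk).1 (hw k hk).2
    have h3 : (0 : ℤ) < ((u k : ℤ) - w k) * ((u k : ℤ) + w k) := by
      have : (w k : ℤ) < u k := by exact_mod_cast h1
      have h4 : (0 : ℤ) ≤ w k := Int.natCast_nonneg _
      exact mul_pos (by linarith) (by linarith)
    rw [h2] at h3
    have h4 : B ≤ q * a := by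
      have : (B : ℤ) ≤ q * a := by linarith
      exact_mod_cast this
    refine ⟨h1, ?_, by omega⟩
    zify [h1.le, (by omega : B ≤ q * a + 1)]
    exact h2
  refine card_le_card_of_injOn (fun k => u k - w k) ?_ ?_
  · intro k hk
    obtain ⟨h1, h2, h3⟩ := key k hk
    rw [Finset.mem_coe, Nat.mem_divisors]
    exact ⟨⟨_, h2.symm⟩, h3.ne'⟩
  · intro k hk l hl hkl
    obtain ⟨h1, h2, h3⟩ := key k hk
    obtain ⟨h4, h5, -⟩ := key l hl
    simp only at hkl
    have h6 : u k + w k = u l + w l := by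
      rw [← hkl, ← h2] at h5
      exact (Nat.eq_of_mul_eq_mul_left (by omega) h5).symm
    have h7 : u k = u l := by omega
    have hB := h.hB
    have hk1 : 1 ≤ k := by have := (hs k hk).1; omega
    have hl1 : 1 ≤ l := by have := (hs l hl).1; omega
    rcases lt_trichotomy k l with h8 | h8 | h8
    · exact absurd h7 (h.strict k l hk1 h8).ne
    · exact h8
    · exact absurd h7 (h.strict l k hl1 h8).ne'

lemma exists_shiftG (h : Shape f q B m u Θ Y) (c : ℕ → ZMod 2) (L : ℕ) (hc : c L = 1) (k : ℕ) (hk : 2 * L + 2 ≤ k)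
    (hkB : B ≤ k) : ∃ n : ℕ, pat f c L n = 1 ∧ n + L ≤ m k ∧
      ∃ w : ℕ, q * (m k - (n + L)) + B = w ^ 2 ∧ w % 2 = 0 := by
  have hkey : Rs c L * PowerSeries.mk f * Θ = Rs c L * Y := by rw [mul_assoc, h.mul]
  have hk1 : 1 ≤ k := by omega
  have hco := congrArg (coeff (m k)) hkey
  have hR : coeff (m k) (Rs c L * Y) = 1 := by
    rw [coeff_mul, Finset.Nat.sum_antidiagonal_eq_sum_range_succ_mk, sum_eq_single 0]
    · simp only
      rw [Nat.sub_zero, h.one k hk1, mul_one, Rs, coeff_mk, if_pos (Nat.zero_le _), Nat.sub_zero, hc]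
    · intro i hi hi0
      rw [mem_range] at hi
      simp only
      by_cases h1 : i ≤ L
      · have h2 : coeff (m k - i) Y = 0 := by
          by_contra h3
          have := h.isolated k i hk1 (by omega) (by omega) h3
          omega
        rw [h2, mul_zero]
      · rw [Rs, coeff_mk, if_neg h1, zero_mul]
    · intro h1
      exact absurd (mem_range.2 (Nat.succ_pos _)) h1
  rw [hR, coeff_mul, Finset.Nat.sum_antidiagonal_eq_sum_range_succ_mk] at hco
  have hex : ∃ i ∈ range (m k).succ, coeff i (Rs c L * PowerSeries.mk f) * coeff (m k - i) Θ ≠ 0 := by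
    by_contra hcon
    push Not at hcon
    rw [sum_eq_zero hcon] at hco
    exact zero_ne_one hco
  obtain ⟨a, ha, hne⟩ := hex
  rw [mem_range] at ha
  have h1 : coeff a (Rs c L * PowerSeries.mk f) ≠ 0 := left_ne_zero_of_mul hne
  obtain ⟨w, hw, hwe⟩ := h.shape _ (right_ne_zero_of_mul hne)
  obtain ⟨-, -, h2⟩ := uw h k a w hkB (by omega) hw hwe
  have e : a - L + L = a := by omega
  refine ⟨a - L, ?_, by omega, w, by rw [e]; exact hw, hwe⟩
  rw [← coeff_Rs, e]
  exact eq_one_of_ne _ h1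

theorem countG (h : Shape f q B m u Θ Y) (c : ℕ → ZMod 2) (L : ℕ) (hc : c L = 1) (K N D : ℕ)
    (hm : ∀ k, 1 ≤ k → k ≤ K → m k ≤ N)
    (hD : ∀ n, 1 ≤ n → n ≤ q * N + 1 → n.divisors.card ≤ D) :
    K ≤ 2 * L + 1 + B + D * ((range (N + 1 - L)).filter fun n => pat f c L n = 1).card := by
  classical
  have hex : ∀ k ∈ Ioc (2 * L + 1 + B) K, ∃ n : ℕ, pat f c L n = 1 ∧ n + L ≤ m k ∧
      ∃ w : ℕ, q * (m k - (n + L)) + B = w ^ 2 ∧ w % 2 = 0 := by
    intro k hk
    have := (mem_Ioc.1 hk).1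
    exact exists_shiftG h c L hc k (by omega) (by omega)
  choose! g hg using hex
  have hmain := card_le_mul_card_image_of_maps_to (s := Ioc (2 * L + 1 + B) K)
    (t := (range (N + 1 - L)).filter fun n => pat f c L n = 1) (f := g) (fun k hk => by
      rw [mem_filter, mem_range]
      have h1 := (hg k hk).2.1
      have h2 := hm k (by have := (mem_Ioc.1 hk).1; omega) (mem_Ioc.1 hk).2
      exact ⟨by omega, (hg k hk).1⟩) D (fun b hb => by
      rw [mem_filter, mem_range] at hb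
      have h1 : ((Ioc (2 * L + 1 + B) K).filter fun a => g a = b).card ≤ (q * (b + L) + 1 - B).divisors.card := by
        apply fiberG h (b + L)
        intro k hk
        rw [mem_filter] at hk
        obtain ⟨h2, h3, h4⟩ := hg k hk.1
        rw [hk.2] at h3 h4
        exact ⟨by have := (mem_Ioc.1 hk.1).1; omega, h3, h4⟩
      refine h1.trans ?_
      rcases Nat.eq_zero_or_pos (q * (b + L) + 1 - B) with h5 | h5
      · rw [h5]
        simp
      · apply hD _ h5
        have h6 : q * (b + L) ≤ q * N := Nat.mul_le_mul_left _ (by omega)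
        omega)
  rw [Nat.card_Ioc] at hmain
  omega

/-- from the count to `Many` -/
theorem many_of_count (hB0 : ∃ B : ℕ, ∀ (c : ℕ → ZMod 2) (L : ℕ), c L = 1 → ∀ K N D : ℕ, 3 * K ^ 2 ≤ 2 * N →
    (∀ n, 1 ≤ n → n ≤ 24 * N + 1 → n.divisors.card ≤ D) →
    K ≤ 2 * L + 1 + B + D * ((range (N + 1 - L)).filter fun n => pat f c L n = 1).card) : Many f := by
  classical
  obtain ⟨B₀, hcnt⟩ := hB0
  intro ε hε B
  obtain ⟨C, hC, hdiv⟩ := Pool.Agent.Helper112.divisor_bound (ε / 2) (by positivity)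
  have hlim : Filter.Tendsto (fun N : ℕ => (N : ℝ) ^ (ε / 2)) Filter.atTop Filter.atTop :=
    (tendsto_rpow_atTop (by positivity)).comp tendsto_natCast_atTop_atTop
  obtain ⟨N₁, hN₁⟩ := Filter.eventually_atTop.1
    (hlim.eventually_ge_atTop (8 * |B| * (C * (25 : ℝ) ^ (ε / 2))))
  refine ⟨N₁ + 100000 * (B₀ + 1) ^ 2, fun N hN L hL c hc => ?_⟩
  have hN1 := hN₁ N (by omega)
  have hNr' : (100000 : ℝ) * ((B₀ : ℝ) + 1) ^ 2 ≤ N := by
    exact_mod_cast (by omega : 100000 * (B₀ + 1) ^ 2 ≤ N)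
  have hB0r : (0 : ℝ) ≤ B₀ := Nat.cast_nonneg _
  have hNr : (100000 : ℝ) ≤ N := by nlinarith
  have hNpos : (0 : ℝ) < N := by linarith
  have hN100 : 1 ≤ N := by
    have : (1 : ℝ) ≤ N := by linarith
    exact_mod_cast this
  -- the top index
  set T := (range (L + 1)).filter fun i => c i ≠ 0 with hT
  have hTne : T.Nonempty := by
    obtain ⟨i, hi, hci⟩ := hc
    exact ⟨i, mem_filter.2 ⟨mem_range.2 (by omega), hci⟩⟩
  set M := T.max' hTne with hM
  have hMmem := mem_filter.1 (T.max'_mem hTne)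
  rw [← hM, mem_range] at hMmem
  have hpat : ∀ n, pat f c L n = pat f c M n := by
    intro n
    unfold pat
    symm
    apply sum_subset
    · intro i hi
      rw [mem_range] at hi ⊢
      omega
    · intro i hi hi2
      rw [mem_range] at hi hi2
      have : c i = 0 := by
        by_contra hci
        have h1 : i ∈ T := mem_filter.2 ⟨mem_range.2 hi, hci⟩
        have h2 := T.le_max' i h1
        rw [← hM] at h2
        omega
      rw [this, zero_mul]
  set D := ⌊C * (25 * (N : ℝ)) ^ (ε / 2)⌋₊ with hDdef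
  have hD : ∀ n, 1 ≤ n → n ≤ 24 * N + 1 → n.divisors.card ≤ D := by
    intro n hn hnN
    apply Nat.le_floor
    refine (hdiv n hn).trans (mul_le_mul_of_nonneg_left ?_ hC.le)
    apply Real.rpow_le_rpow (by positivity) _ (by positivity)
    have : n ≤ 25 * N := by omega
    exact_mod_cast this
  set K := Nat.sqrt (2 * N / 3) with hK
  have hK2 : 3 * K ^ 2 ≤ 2 * N := by
    have h1 : K * K ≤ 2 * N / 3 := Nat.sqrt_le _
    have h2 : 3 * (2 * N / 3) ≤ 2 * N := Nat.mul_div_le _ _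
    nlinarith
  have hcount := hcnt c M (eq_one_of_ne _ hMmem.2) K N D hK2 hD
  set H := (range (N + 1 - M)).filter fun n => pat f c M n = 1 with hH
  set H' := (range (N + 1)).filter fun n => pat f c L n = 1 with hH'
  have hHH : H.card ≤ H'.card := by
    apply card_le_card
    intro n hn
    rw [hH, mem_filter, mem_range] at hn
    rw [hH', mem_filter, mem_range]
    exact ⟨by omega, by rw [hpat]; exact hn.2⟩
  set s := √(N : ℝ) with hs
  have hs2 : s ^ 2 = N := Real.sq_sqrt hNpos.le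
  have hs0 : 0 ≤ s := Real.sqrt_nonneg _
  have hs1 : 300 * ((B₀ : ℝ) + 1) ≤ s := by
    rw [hs]
    apply Real.le_sqrt_of_sq_le
    nlinarith
  have hKs : 0.8 * s - 1 ≤ K := by
    have h1 : 2 * N / 3 < (K + 1) * (K + 1) := Nat.lt_succ_sqrt _
    have h2 : 2 * N < 3 * (2 * N / 3) + 3 := by omega
    have h3 : 2 * N < 3 * ((K + 1) * (K + 1)) + 3 := by omega
    have h4 : 2 * (N : ℝ) < 3 * (((K : ℝ) + 1) * (K + 1)) + 3 := by exact_mod_cast h3
    have h5 : (0 : ℝ) ≤ K := Nat.cast_nonneg K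
    by_contra hcon
    rw [not_le] at hcon
    have h6 : (K : ℝ) + 1 < 0.8 * s := by linarith
    have h7 : ((K : ℝ) + 1) * (K + 1) ≤ (0.8 * s) * (0.8 * s) :=
      mul_le_mul h6.le h6.le (by linarith) (by linarith)
    nlinarith
  have hLs : 3 * (M : ℝ) ≤ s := by
    have h1 : (M : ℝ) ≤ L := by exact_mod_cast (by omega : M ≤ L)
    have h2 : 3 * (L : ℝ) ≤ s := by
      rw [hs]
      apply Real.le_sqrt_of_sq_le
      have : (9 * (L : ℝ) ^ 2) ≤ N := by exact_mod_cast hL
      linarith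
    linarith
  have hmain : s / 8 ≤ D * (H'.card : ℝ) := by
    have h1 : (K : ℝ) ≤ 2 * M + 1 + B₀ + D * H.card := by exact_mod_cast hcount
    have h2 : (D : ℝ) * H.card ≤ D * H'.card :=
      mul_le_mul_of_nonneg_left (by exact_mod_cast hHH) (Nat.cast_nonneg D)
    linarith
  have hDr : (D : ℝ) ≤ C * (25 : ℝ) ^ (ε / 2) * (N : ℝ) ^ (ε / 2) := by
    refine (Nat.floor_le (by positivity)).trans (le_of_eq ?_)
    rw [Real.mul_rpow (by norm_num) hNpos.le]
    ring
  set C' := C * (25 : ℝ) ^ (ε / 2) with hC'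
  have hC'0 : 0 < C' := by positivity
  set y := (N : ℝ) ^ (ε / 2) with hy
  have hy0 : 0 < y := Real.rpow_pos_of_pos hNpos _
  have hcard0 : (0 : ℝ) ≤ H'.card := Nat.cast_nonneg _
  have h1 : s ≤ 8 * C' * y * H'.card := by
    have := mul_le_mul_of_nonneg_right hDr hcard0
    linarith
  have hx : (N : ℝ) ^ (1 / 2 - ε) * y * y = s := by
    rw [hy, ← Real.rpow_add hNpos, ← Real.rpow_add hNpos, hs, Real.sqrt_eq_rpow]
    congr 1
    ring
  set x := (N : ℝ) ^ (1 / 2 - ε) with hxdef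
  have hx0 : 0 < x := Real.rpow_pos_of_pos hNpos _
  have h2 : B * x * (8 * C' * y) ≤ s := by
    have h3 : B * x * (8 * C' * y) ≤ |B| * x * (8 * C' * y) :=
      mul_le_mul_of_nonneg_right (mul_le_mul_of_nonneg_right (le_abs_self B) hx0.le) (by positivity)
    have h4 : |B| * x * (8 * C' * y) = (8 * |B| * C') * (x * y) := by ring
    have h5 : (8 * |B| * C') * (x * y) ≤ y * (x * y) := mul_le_mul_of_nonneg_right hN1 (by positivity)
    rw [← hx]
    linarith
  have h3 : B * x * (8 * C' * y) ≤ H'.card * (8 * C' * y) := by linarith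
  exact le_of_mul_le_mul_right h3 (by positivity)

theorem many_of_shape (h : Shape f q B m u Θ Y) (hq : q ≤ 24)
    (hm : ∀ K N : ℕ, 3 * K ^ 2 ≤ 2 * N → ∀ k, 1 ≤ k → k ≤ K → m k ≤ N) : Many f := by
  refine many_of_count ⟨B, fun c L hc K N D hK hD => ?_⟩
  refine countG h c L hc K N D (hm K N hK) fun n hn hnN => hD n hn ?_
  have : q * N ≤ 24 * N := Nat.mul_le_mul_right _ hq
  omega

end Pool.Agent.U496.UP
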