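import Pool.Agent.U496.UP.Core

/-!
# Patterns of length up to `√N / 4`, and linear machines
-/

set_option autoImplicit false

namespace Pool.Agent.U496.UP

open Finset

/-- many odd values of all patterns of length up to `√N / 3` -/
def Many (f : ℕ → ZMod 2) : Prop := ∀ ε : ℝ, 0 < ε → ∀ B : ℝ, ∃ N₀ : ℕ, ∀ N : ℕ, N₀ ≤ N → ∀ L : ℕ, 9 * L ^ 2 ≤ N →
    ∀ c : ℕ → ZMod 2, (∃ i, i ≤ L ∧ c i ≠ 0) →
      B * (N : ℝ) ^ (1 / 2 - ε) ≤ ((range (N + 1)).filter fun n => pat f c L n = 1).card

/-- many odd values, uniformly in the length of the pattern -/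
theorem odd_many : Many p2 := by
  classical
  intro ε hε B
  obtain ⟨C, hC, hdiv⟩ := Pool.Agent.Helper112.divisor_bound (ε / 2) (by positivity)
  -- the two conditions on `N`
  have hlim : Filter.Tendsto (fun N : ℕ => (N : ℝ) ^ (ε / 2)) Filter.atTop Filter.atTop :=
    (tendsto_rpow_atTop (by positivity)).comp tendsto_natCast_atTop_atTop
  obtain ⟨N₁, hN₁⟩ := Filter.eventually_atTop.1
    (hlim.eventually_ge_atTop (8 * |B| * (C * (24 : ℝ) ^ (ε / 2))))
  refine ⟨N₁ + 100000, fun N hN L hL c hc => ?_⟩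
  have hN1 := hN₁ N (by omega)
  have hNr : (100000 : ℝ) ≤ N := by exact_mod_cast (by omega : 100000 ≤ N)
  have hNpos : (0 : ℝ) < N := by linarith
  -- the top index
  set T := (range (L + 1)).filter fun i => c i ≠ 0 with hT
  have hTne : T.Nonempty := by
    obtain ⟨i, hi, hci⟩ := hc
    exact ⟨i, mem_filter.2 ⟨mem_range.2 (by omega), hci⟩⟩
  set M := T.max' hTne with hM
  have hMmem := mem_filter.1 (T.max'_mem hTne)
  rw [← hM, mem_range] at hMmem
  have hpat : ∀ n, pat p2 c L n = pat p2 c M n := by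
    intro n
    unfold pat
    symm
    apply sum_subset
    · intro i hi
      rw [mem_range] at hi ⊢
      omega
    · intro i hi hi2
      rw [mem_range] at hi hi2
      have : c i = 0 := by
        by_contra hci
        have h1 : i ∈ T := mem_filter.2 ⟨mem_range.2 hi, hci⟩
        have h2 := T.le_max' i h1
        rw [← hM] at h2
        omega
      rw [this, zero_mul]
  set D := ⌊C * (24 * (N : ℝ)) ^ (ε / 2)⌋₊ with hDdef
  have hD : ∀ a, 1 ≤ a → a ≤ N → (24 * a).divisors.card ≤ D := by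
    intro a ha haN
    apply Nat.le_floor
    refine (hdiv (24 * a) (by omega)).trans (mul_le_mul_of_nonneg_left ?_ hC.le)
    apply Real.rpow_le_rpow (by positivity) _ (by positivity)
    have : (a : ℝ) ≤ N := by exact_mod_cast haN
    push_cast
    linarith
  set K := Nat.sqrt (2 * N / 3) with hK
  have hK2 : 3 * K ^ 2 ≤ 2 * N := by
    have h1 : K * K ≤ 2 * N / 3 := Nat.sqrt_le _
    have h2 : 3 * (2 * N / 3) ≤ 2 * N := Nat.mul_div_le _ _
    nlinarith
  have hcount := count c M (eq_one_of_ne _ hMmem.2) K N D hK2 hD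
  set H := (range (N + 1 - M)).filter fun n => pat p2 c M n = 1 with hH
  set H' := (range (N + 1)).filter fun n => pat p2 c L n = 1 with hH'
  have hHH : H.card ≤ H'.card := by
    apply card_le_card
    intro n hn
    rw [hH, mem_filter, mem_range] at hn
    rw [hH', mem_filter, mem_range]
    exact ⟨by omega, by rw [hpat]; exact hn.2⟩
  -- real numbers
  set s := √(N : ℝ) with hs
  have hs2 : s ^ 2 = N := Real.sq_sqrt hNpos.le
  have hs0 : 0 ≤ s := Real.sqrt_nonneg _
  have hs1 : 300 ≤ s := by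
    rw [hs]
    apply Real.le_sqrt_of_sq_le
    linarith
  have hKs : 0.8 * s - 1 ≤ K := by
    have h1 : 2 * N / 3 < (K + 1) * (K + 1) := Nat.lt_succ_sqrt _
    have h2 : 2 * N < 3 * (2 * N / 3) + 3 := by omega
    have h3 : 2 * N < 3 * ((K + 1) * (K + 1)) + 3 := by omega
    have h4 : 2 * (N : ℝ) < 3 * (((K : ℝ) + 1) * (K + 1)) + 3 := by exact_mod_cast h3
    have h5 : (0 : ℝ) ≤ K := Nat.cast_nonneg K
    by_contra hcon
    rw [not_le] at hcon
    have h6 : (K : ℝ) + 1 < 0.8 * s := by linarith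
    have h7 : ((K : ℝ) + 1) * (K + 1) ≤ (0.8 * s) * (0.8 * s) :=
      mul_le_mul h6.le h6.le (by linarith) (by linarith)
    nlinarith
  have hLs : 3 * (M : ℝ) ≤ s := by
    have h1 : (M : ℝ) ≤ L := by exact_mod_cast (by omega : M ≤ L)
    have h2 : 3 * (L : ℝ) ≤ s := by
      rw [hs]
      apply Real.le_sqrt_of_sq_le
      have : (9 * (L : ℝ) ^ 2) ≤ N := by exact_mod_cast hL
      linarith
    linarith
  have hmain : s / 8 ≤ D * (H'.card : ℝ) := by
    have h1 : (K : ℝ) ≤ 2 * M + 1 + D * H.card := by exact_mod_cast hcount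
    have h2 : (D : ℝ) * H.card ≤ D * H'.card :=
      mul_le_mul_of_nonneg_left (by exact_mod_cast hHH) (Nat.cast_nonneg D)
    linarith
  have hDr : (D : ℝ) ≤ C * (24 : ℝ) ^ (ε / 2) * (N : ℝ) ^ (ε / 2) := by
    refine (Nat.floor_le (by positivity)).trans (le_of_eq ?_)
    rw [Real.mul_rpow (by norm_num) hNpos.le]
    ring
  set C' := C * (24 : ℝ) ^ (ε / 2) with hC'
  have hC'0 : 0 < C' := by positivity
  set y := (N : ℝ) ^ (ε / 2) with hy
  have hy0 : 0 < y := Real.rpow_pos_of_pos hNpos _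
  have hcard0 : (0 : ℝ) ≤ H'.card := Nat.cast_nonneg _
  have h1 : s ≤ 8 * C' * y * H'.card := by
    have := mul_le_mul_of_nonneg_right hDr hcard0
    linarith
  have hx : (N : ℝ) ^ (1 / 2 - ε) * y * y = s := by
    rw [hy, ← Real.rpow_add hNpos, ← Real.rpow_add hNpos, hs, Real.sqrt_eq_rpow]
    congr 1
    ring
  set x := (N : ℝ) ^ (1 / 2 - ε) with hxdef
  have hx0 : 0 < x := Real.rpow_pos_of_pos hNpos _
  have h2 : B * x * (8 * C' * y) ≤ s := by
    have h3 : B * x * (8 * C' * y) ≤ |B| * x * (8 * C' * y) :=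
      mul_le_mul_of_nonneg_right (mul_le_mul_of_nonneg_right (le_abs_self B) hx0.le) (by positivity)
    have h4 : |B| * x * (8 * C' * y) = (8 * |B| * C') * (x * y) := by ring
    have h5 : (8 * |B| * C') * (x * y) ≤ y * (x * y) := mul_le_mul_of_nonneg_right hN1 (by positivity)
    rw [← hx]
    linarith
  have h3 : B * x * (8 * C' * y) ≤ H'.card * (8 * C' * y) := by linarith
  exact le_of_mul_le_mul_right h3 (by positivity)

/-- a power with exponent at most `1 / 2` at least halves at most when the number is divided by at most `4` -/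
lemma quarter (N M ε : ℝ) (hN : 0 < N) (h : N ≤ 4 * M) (hM : M ≤ N) (hε : 0 < ε) :
    N ^ (1 / 2 - ε) ≤ 2 * M ^ (1 / 2 - ε) := by
  have hM0 : 0 < M := by linarith
  have h1 : (1 : ℝ) / 4 ≤ M / N := by
    rw [le_div_iff₀ hN]
    linarith
  have h2 : M / N ≤ 1 := (div_le_one hN).2 hM
  have h3 : (1 : ℝ) / 2 ≤ (M / N) ^ (1 / 2 - ε) := by
    have h4 : (M / N) ^ ((1 : ℝ) / 2) ≤ (M / N) ^ (1 / 2 - ε) :=
      Real.rpow_le_rpow_of_exponent_ge (by positivity) h2 (by linarith)
    have h5 : ((1 : ℝ) / 4) ^ ((1 : ℝ) / 2) ≤ (M / N) ^ ((1 : ℝ) / 2) :=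
      Real.rpow_le_rpow (by norm_num) h1 (by norm_num)
    have h6 : ((1 : ℝ) / 4) ^ ((1 : ℝ) / 2) = 1 / 2 := by
      rw [← Real.sqrt_eq_rpow, show (1 : ℝ) / 4 = (1 / 2) ^ 2 by norm_num, Real.sqrt_sq (by norm_num)]
    linarith
  rw [Real.div_rpow hM0.le hN.le, le_div_iff₀ (Real.rpow_pos_of_pos hN _)] at h3
  linarith

/-- both values -/
theorem both_many {f : ℕ → ZMod 2} (hf : Many f) (ε : ℝ) (hε : 0 < ε) : ∃ N₀ : ℕ, ∀ N : ℕ, N₀ ≤ N → ∀ L : ℕ, 16 * L ^ 2 ≤ N →
    ∀ c : ℕ → ZMod 2, (∃ i, i ≤ L ∧ c i ≠ 0) → ∀ κ : ZMod 2,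
      (N : ℝ) ^ (1 / 2 - ε) ≤ ((range (N + 1)).filter fun n => pat f c L n = κ).card := by
  classical
  obtain ⟨N₀, h⟩ := hf ε hε 4
  refine ⟨4 * N₀ + 1000, fun N hN L hL c hc κ => ?_⟩
  have hNpos : (0 : ℝ) < N := by exact_mod_cast (by omega : 0 < N)
  have hx0 : 0 < (N : ℝ) ^ (1 / 2 - ε) := Real.rpow_pos_of_pos hNpos _
  have hκ : κ = 0 ∨ κ = 1 := by
    revert κ
    decide
  rcases hκ with rfl | rfl
  · -- the pattern `w (n) + w (n + 1)`
    set c' : ℕ → ZMod 2 := fun i => (if i ≤ L then c i else 0) +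
      (if 1 ≤ i ∧ i ≤ L + 1 then c (i - 1) else 0) with hc'
    have hpat : ∀ n, pat f c' (L + 1) n = pat f c L n + pat f c L (n + 1) := by
      intro n
      unfold pat
      simp only [hc', add_mul, sum_add_distrib]
      congr 1
      · rw [sum_range_succ _ (L + 1), if_neg (by omega), zero_mul, add_zero]
        apply sum_congr rfl
        intro i hi
        rw [mem_range] at hi
        rw [if_pos (by omega)]
      · rw [sum_range_succ']
        rw [if_neg (by omega), zero_mul, add_zero]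
        apply sum_congr rfl
        intro i hi
        rw [mem_range] at hi
        rw [if_pos (by omega), Nat.add_sub_cancel, show n + (i + 1) = n + 1 + i by ring]
    have hne : ∃ i, i ≤ L + 1 ∧ c' i ≠ 0 := by
      -- the top index
      set T := (range (L + 1)).filter fun i => c i ≠ 0 with hT
      have hTne : T.Nonempty := by
        obtain ⟨i, hi, hci⟩ := hc
        exact ⟨i, mem_filter.2 ⟨mem_range.2 (by omega), hci⟩⟩
      have hMmem := mem_filter.1 (T.max'_mem hTne)
      set M := T.max' hTne with hM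
      rw [mem_range] at hMmem
      refine ⟨M + 1, by omega, ?_⟩
      simp only [hc']
      rw [if_pos (show 1 ≤ M + 1 ∧ M + 1 ≤ L + 1 by omega), Nat.add_sub_cancel]
      by_cases h1 : M + 1 ≤ L
      · have h2 : c (M + 1) = 0 := by
          by_contra hci
          have h3 : M + 1 ∈ T := mem_filter.2 ⟨mem_range.2 (by omega), hci⟩
          have h4 := T.le_max' _ h3
          rw [← hM] at h4
          omega
        rw [if_pos h1, h2, zero_add]
        exact hMmem.2
      · rw [if_neg h1, zero_add]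
        exact hMmem.2
    have hL' : 9 * (L + 1) ^ 2 ≤ N - 1 := by
      have h1 : 16 * L ^ 2 ≤ N := hL
      rcases Nat.lt_or_ge L 7 with h2 | h2
      · have h3 : (L + 1) ^ 2 ≤ 7 ^ 2 := Nat.pow_le_pow_left (by omega) 2
        omega
      · have h3 : 9 * (L + 1) ^ 2 + 1 ≤ 16 * L ^ 2 := by nlinarith
        omega
    have h1 := h (N - 1) (by omega) (L + 1) hL' c' hne
    set Z := (range (N + 1)).filter fun n => pat f c L n = 0 with hZ
    have h2 : ((range (N - 1 + 1)).filter fun n => pat f c' (L + 1) n = 1).card ≤ Z.card + Z.card := by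
      have h3 : ((range (N - 1 + 1)).filter fun n => pat f c' (L + 1) n = 1) ⊆
          Z ∪ ((range (N - 1 + 1)).filter fun n => n + 1 ∈ Z) := by
        intro n hn
        rw [mem_filter, mem_range] at hn
        rw [mem_union]
        have h4 : pat f c L n + pat f c L (n + 1) = 1 := by rw [← hpat]; exact hn.2
        have h5 : ∀ a b : ZMod 2, a + b = 1 → a = 0 ∨ b = 0 := by decide
        rcases h5 _ _ h4 with h6 | h6
        · left
          exact mem_filter.2 ⟨mem_range.2 (by omega), h6⟩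
        · right
          exact mem_filter.2 ⟨mem_range.2 hn.1, mem_filter.2 ⟨mem_range.2 (by omega), h6⟩⟩
      refine (card_le_card h3).trans ((card_union_le _ _).trans (Nat.add_le_add_left ?_ _))
      refine card_le_card_of_injOn (fun n => n + 1) ?_ ?_
      · intro n hn
        exact (mem_filter.1 hn).2
      · intro a _ b _ hab
        simpa using hab
    have h3 : (((range (N - 1 + 1)).filter fun n => pat f c' (L + 1) n = 1).card : ℝ) ≤ Z.card + Z.card := by
      exact_mod_cast h2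
    have h4 : (N : ℝ) ^ (1 / 2 - ε) ≤ 2 * ((N - 1 : ℕ) : ℝ) ^ (1 / 2 - ε) := by
      have h5 : (N : ℝ) ≤ 4 * ((N - 1 : ℕ) : ℝ) := by exact_mod_cast (by omega : N ≤ 4 * (N - 1))
      exact quarter N ((N - 1 : ℕ) : ℝ) ε hNpos h5 (by exact_mod_cast (by omega : N - 1 ≤ N)) hε
    linarith
  · have h1 := h N (by omega) L (by nlinarith) c hc
    linarith

/-- without a bad place in `[n, n + d]` the pattern of the characteristic polynomial vanishes -/
lemma vanish {f : ℕ → ZMod 2} {N : ℕ} {V : Type} [AddCommGroup V] [Module (ZMod 2) V] [FiniteDimensional (ZMod 2) V]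
    (T : V →ₗ[ZMod 2] V) (o : V →ₗ[ZMod 2] ZMod 2) (x : ℕ → V) (bad : Finset ℕ)
    (hx : ∀ n, n ≤ N → n ∉ bad → x (n + 1) = T (x n) ∧ o (x n) = f n) (n : ℕ)
    (hn : n + Module.finrank (ZMod 2) V ≤ N) (hb : ∀ i, i ≤ Module.finrank (ZMod 2) V → n + i ∉ bad) :
    pat f (fun i => T.charpoly.coeff i) (Module.finrank (ZMod 2) V) n = 0 := by
  set d := Module.finrank (ZMod 2) V with hd
  have hdeg : T.charpoly.natDegree = d := T.charpoly_natDegree
  have h2 : ∀ i, i ≤ d → x (n + i) = (T ^ i) (x n) := by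
    intro i
    induction i with
    | zero => intro _; simp
    | succ i ih =>
      intro hi
      rw [← add_assoc, (hx (n + i) (by omega) (hb i (by omega))).1, ih (by omega), pow_succ']
      rfl
  have h3 : pat f (fun i => T.charpoly.coeff i) d n = o (Polynomial.aeval T T.charpoly (x n)) := by
    rw [Polynomial.aeval_eq_sum_range, hdeg, LinearMap.sum_apply, map_sum]
    unfold pat
    apply sum_congr rfl
    intro i hi
    rw [mem_range] at hi
    rw [LinearMap.smul_apply, map_smul, ← h2 i (by omega), (hx (n + i) (by omega) (hb i (by omega))).2]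
    rfl
  rw [h3, LinearMap.aeval_self_charpoly]
  simp

lemma charpoly_ne {V : Type} [AddCommGroup V] [Module (ZMod 2) V] [FiniteDimensional (ZMod 2) V]
    (T : V →ₗ[ZMod 2] V) : ∃ i, i ≤ Module.finrank (ZMod 2) V ∧ T.charpoly.coeff i ≠ 0 := by
  refine ⟨Module.finrank (ZMod 2) V, le_rfl, ?_⟩
  have h2 : T.charpoly.coeff T.charpoly.natDegree = 1 := T.charpoly_monic
  rw [T.charpoly_natDegree] at h2
  rw [h2]
  exact one_ne_zero

/-- **Linear machines of growing dimension.** -/
theorem machine {f : ℕ → ZMod 2} (hf : Many f) (ε : ℝ) (hε : 0 < ε) : ∃ N₀ : ℕ, ∀ N : ℕ, N₀ ≤ N → ∀ S : ℕ, 16 * S ^ 2 ≤ N →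
    ∀ (V : Type) [AddCommGroup V] [Module (ZMod 2) V] [FiniteDimensional (ZMod 2) V],
      Module.finrank (ZMod 2) V ≤ S → ∀ (T : V →ₗ[ZMod 2] V) (o : V →ₗ[ZMod 2] ZMod 2) (x : ℕ → V)
        (bad : Finset ℕ), (∀ n, n ≤ N → n ∉ bad → x (n + 1) = T (x n) ∧ o (x n) = f n) →
        (N : ℝ) ^ (1 / 2 - ε) ≤ (S + 1) * (bad.card : ℝ) := by
  classical
  obtain ⟨N₀, h⟩ := hf ε hε 2
  refine ⟨4 * N₀ + 1000, fun N hN S hS V _ _ _ hV T o x bad hx => ?_⟩
  have hNpos : (0 : ℝ) < N := by exact_mod_cast (by omega : 0 < N)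
  set d := Module.finrank (ZMod 2) V with hd
  set c : ℕ → ZMod 2 := fun i => T.charpoly.coeff i with hc
  have hSN : 4 * S ≤ N := by
    by_contra h1
    have h2 : N < 4 * S := by omega
    nlinarith
  have h9 : 9 * d ^ 2 ≤ N - S := by
    have h1 : d ^ 2 ≤ S ^ 2 := Nat.pow_le_pow_left hV 2
    rcases Nat.lt_or_ge S 2 with h2 | h2
    · have h3 : S ^ 2 ≤ 1 := by
        have := Nat.pow_le_pow_left (show S ≤ 1 by omega) 2
        omega
      omega
    · have h3 : 9 * S ^ 2 + S ≤ 16 * S ^ 2 := by nlinarith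
      omega
  have h1 := h (N - S) (by omega) d h9 c (charpoly_ne T)
  -- counting
  have h2 : ((range (N - S + 1)).filter fun n => pat f c d n = 1).card ≤ (d + 1) * bad.card := by
    have h3 : ((range (N - S + 1)).filter fun n => pat f c d n = 1) ⊆
        bad.biUnion fun b => (range (d + 1)).image fun i => b - i := by
      intro n hn
      rw [mem_filter, mem_range] at hn
      by_contra hcon
      have h4 : pat f c d n = 0 := by
        apply vanish T o x bad hx n (by omega)
        intro i hi hbad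
        apply hcon
        rw [mem_biUnion]
        exact ⟨n + i, hbad, mem_image.2 ⟨i, mem_range.2 (by omega), by omega⟩⟩
      rw [h4] at hn
      exact zero_ne_one hn.2
    refine (card_le_card h3).trans (card_biUnion_le.trans ?_)
    refine (sum_le_sum (g := fun _ => d + 1) fun b _ => ?_).trans ?_
    · refine card_image_le.trans ?_
      rw [card_range]
    · rw [sum_const, smul_eq_mul, mul_comm]
  have h3 : (((range (N - S + 1)).filter fun n => pat f c d n = 1).card : ℝ) ≤ (d + 1) * bad.card := by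
    exact_mod_cast h2
  have h4 : ((d : ℝ) + 1) * bad.card ≤ (S + 1) * bad.card := by
    apply mul_le_mul_of_nonneg_right _ (Nat.cast_nonneg _)
    have : (d : ℝ) ≤ S := by exact_mod_cast hV
    linarith
  have h5 : (N : ℝ) ^ (1 / 2 - ε) ≤ 2 * ((N - S : ℕ) : ℝ) ^ (1 / 2 - ε) := by
    have h6 : (N : ℝ) ≤ 4 * ((N - S : ℕ) : ℝ) := by exact_mod_cast (by omega : N ≤ 4 * (N - S))
    exact quarter N ((N - S : ℕ) : ℝ) ε hNpos h6 (by exact_mod_cast (by omega : N - S ≤ N)) hε
  linarith

/-- both values of every pattern in every interval of linear length -/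
def Deep (f : ℕ → ZMod 2) : Prop := ∃ C : ℕ, ∀ (L : ℕ) (c : ℕ → ZMod 2), (∃ i, i ≤ L ∧ c i ≠ 0) → ∀ (κ : ZMod 2) (A : ℕ),
  ∃ n, A ≤ n ∧ n ≤ C * (A + L + 1) ∧ pat f c L n = κ

/-- **Linear machines of any dimension.** -/
theorem machine_log {f : ℕ → ZMod 2} (hf : Deep f) : ∃ C : ℕ, ∀ (N S : ℕ) (V : Type) [AddCommGroup V]
    [Module (ZMod 2) V] [FiniteDimensional (ZMod 2) V], Module.finrank (ZMod 2) V ≤ S →
      ∀ (T : V →ₗ[ZMod 2] V) (o : V →ₗ[ZMod 2] ZMod 2) (x : ℕ → V)
        (bad : Finset ℕ), (∀ n, n ≤ N → n ∉ bad → x (n + 1) = T (x n) ∧ o (x n) = f n) →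
        N ≤ C ^ (bad.card + 1) * (S + 1) := by
  classical
  obtain ⟨C, h⟩ := hf
  refine ⟨2 * C + 4, fun N S V _ _ _ hV T o x bad hx => ?_⟩
  set d := Module.finrank (ZMod 2) V with hd
  set K := 2 * C + 4 with hK
  -- by induction on the number of the bad places below `A`
  have key : ∀ m : ℕ, (bad.filter fun b => b < K ^ m * (S + 1)).card < m → N ≤ K ^ m * (S + 1) := by
    intro m
    induction m with
    | zero => intro h0; exact absurd h0 (Nat.not_lt_zero _)
    | succ m ih =>
      intro hm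
      by_contra hN
      rw [not_le] at hN
      have hmono : K ^ m * (S + 1) ≤ K ^ (m + 1) * (S + 1) :=
        Nat.mul_le_mul_right _ (Nat.pow_le_pow_right (by omega) (Nat.le_succ m))
      have h1 : m ≤ (bad.filter fun b => b < K ^ m * (S + 1)).card := by
        by_contra h2
        have := ih (by omega)
        omega
      obtain ⟨n, h3, h4, h5⟩ := h d (fun i => T.charpoly.coeff i) (charpoly_ne T) 1 (K ^ m * (S + 1))
      have hSm : S + 1 ≤ K ^ m * (S + 1) := Nat.le_mul_of_pos_left _ (Nat.pos_of_ne_zero (by positivity))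
      have h6 : n + d < K ^ (m + 1) * (S + 1) := by
        have h7 : C * (K ^ m * (S + 1) + d + 1) ≤ C * (2 * (K ^ m * (S + 1))) :=
          Nat.mul_le_mul_left _ (by omega)
        have h8 : K ^ (m + 1) * (S + 1) = C * (2 * (K ^ m * (S + 1))) + 4 * (K ^ m * (S + 1)) := by
          rw [pow_succ, hK]
          ring
        omega
      have h7 : ∃ i, i ≤ d ∧ n + i ∈ bad := by
        by_contra hcon
        push Not at hcon
        have h8 := vanish T o x bad hx n (by omega) hcon
        rw [h8] at h5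
        exact zero_ne_one h5
      obtain ⟨i, hi, hbad⟩ := h7
      have h8 : insert (n + i) (bad.filter fun b => b < K ^ m * (S + 1)) ⊆
          bad.filter fun b => b < K ^ (m + 1) * (S + 1) := by
        intro b hb
        rw [mem_insert, mem_filter] at hb
        rw [mem_filter]
        rcases hb with rfl | ⟨hb1, hb2⟩
        · exact ⟨hbad, by omega⟩
        · exact ⟨hb1, by omega⟩
      have h9 := card_le_card h8
      rw [card_insert_of_notMem (by
        rw [mem_filter]
        rintro ⟨-, h10⟩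
        omega)] at h9
      omega
  exact key (bad.card + 1) (Nat.lt_succ_of_le (card_le_card (filter_subset _ _)))

end Pool.Agent.U496.UP
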